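import Pool.Agent.W648.UN.Stm2

set_option autoImplicit false

open MeasureTheory Set Filter Topology
open scoped ContDiff

noncomputable section

namespace Pool.Agent.W287.UN.MMs

open Pool.Agent.W648.UN

/-- the integrand, cut off below `1` -/
def kk (h : ℝ → ℝ) (s : ℝ) : ℝ := if s < 1 then 0 else h (Real.log s)

/-- its antiderivative -/
def KI (h : ℝ → ℝ) (x : ℝ) : ℝ := ∫ s in (0 : ℝ)..x, kk h s

variable {h : ℝ → ℝ}

theorem kk_pos (h0 : ∀ t ≤ 0, h t = 0) {s : ℝ} (hs : 0 < s) : kk h s = h (Real.log s) := by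
  unfold kk
  split_ifs with h1
  · rw [h0 _ (Real.log_nonpos hs.le h1.le)]
  · rfl

theorem kk_contDiff (hc : ContDiff ℝ ∞ h) (h0 : ∀ t ≤ 0, h t = 0) : ContDiff ℝ ∞ (kk h) := by
  rw [contDiff_iff_contDiffAt]
  intro s
  rcases lt_or_ge s 1 with hs | hs
  · have h1 : kk h =ᶠ[𝓝 s] fun _ => 0 := by
      filter_upwards [Iio_mem_nhds hs] with x hx
      unfold kk
      rw [if_pos (mem_Iio.1 hx)]
    exact contDiffAt_const.congr_of_eventuallyEq h1
  · have hs0 : 0 < s := by linarith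
    have h1 : kk h =ᶠ[𝓝 s] fun x => h (Real.log x) := by
      filter_upwards [Ioi_mem_nhds hs0] with x hx
      exact kk_pos h0 hx
    refine ContDiffAt.congr_of_eventuallyEq ?_ h1
    exact (hc.contDiffAt).comp s (Real.contDiffAt_log.2 hs0.ne')

theorem kk_neg {s : ℝ} (hs : s < 1) : kk h s = 0 := by
  unfold kk
  rw [if_pos hs]

theorem kk_bd (hb : ∀ t, |h t| ≤ 1 / 200) (s : ℝ) : |kk h s| ≤ 1 / 200 := by
  unfold kk
  split_ifs with h1
  · norm_num
  · exact hb _

theorem KI_deriv (hc : ContDiff ℝ ∞ h) (h0 : ∀ t ≤ 0, h t = 0) (x : ℝ) :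
    HasDerivAt (KI h) (kk h x) x := by
  have hcont : Continuous (kk h) := (kk_contDiff hc h0).continuous
  exact intervalIntegral.integral_hasDerivAt_right (hcont.intervalIntegrable _ _)
    (hcont.stronglyMeasurableAtFilter _ _) hcont.continuousAt

theorem KI_contDiff (hc : ContDiff ℝ ∞ h) (h0 : ∀ t ≤ 0, h t = 0) : ContDiff ℝ ∞ (KI h) := by
  rw [contDiff_infty_iff_deriv]
  refine ⟨fun x => (KI_deriv hc h0 x).differentiableAt, ?_⟩
  have h1 : deriv (KI h) = kk h := by
    funext x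
    exact (KI_deriv hc h0 x).deriv
  rw [h1]
  exact kk_contDiff hc h0

theorem KI_nonpos {x : ℝ} (hx : x ≤ 0) : KI h x = 0 := by
  unfold KI
  rw [intervalIntegral.integral_congr (g := fun _ => (0 : ℝ))]
  · simp
  · intro s hs
    rw [uIcc_of_ge hx] at hs
    exact kk_neg (by linarith [hs.2])

theorem MM_abs (h0 : ∀ t ≤ 0, h t = 0) (v : ℝ) : MM h v = KI h |v| := by
  unfold MM KI
  rw [intervalIntegral.integral_of_le (abs_nonneg v), intervalIntegral.integral_of_le (abs_nonneg v)]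
  refine setIntegral_congr_fun measurableSet_Ioc ?_
  intro s hs
  exact (kk_pos h0 hs.1).symm

theorem MM_eq (h0 : ∀ t ≤ 0, h t = 0) : MM h = fun v => KI h v + KI h (-v) := by
  funext v
  rw [MM_abs h0]
  rcases le_total 0 v with hv | hv
  · rw [abs_of_nonneg hv, KI_nonpos (x := -v) (by linarith), add_zero]
  · rw [abs_of_nonpos hv, KI_nonpos (x := v) hv, zero_add]

theorem MM_deriv (hc : ContDiff ℝ ∞ h) (h0 : ∀ t ≤ 0, h t = 0) (v : ℝ) :
    HasDerivAt (MM h) (kk h v - kk h (-v)) v := by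
  rw [MM_eq h0]
  have h1 : HasDerivAt (fun v => KI h (-v)) (kk h (-v) * (-1)) v :=
    (KI_deriv hc h0 (-v)).comp v (hasDerivAt_neg v)
  have h2 := (KI_deriv hc h0 v).add h1
  have h3 : kk h v + kk h (-v) * (-1) = kk h v - kk h (-v) := by ring
  rw [h3] at h2
  exact h2

theorem th : S_MM := by
  intro h hc h0 hb
  refine ⟨?_, ?_, ?_, ?_⟩
  · rw [MM_eq h0]
    exact (KI_contDiff hc h0).add ((KI_contDiff hc h0).comp contDiff_neg)
  · intro v
    rw [MM_abs h0, MM_abs h0, abs_neg]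
  · intro v hv
    have h1 := MM_deriv hc h0 v
    rw [kk_neg (s := -v) (by linarith), sub_zero, kk_pos h0 hv] at h1
    exact h1
  · intro v
    rw [(MM_deriv hc h0 v).deriv]
    rcases le_total 0 v with hv | hv
    · rw [kk_neg (s := -v) (by linarith), sub_zero]
      exact kk_bd hb v
    · rw [kk_neg (s := v) (by linarith), zero_sub, abs_neg]
      exact kk_bd hb (-v)

end Pool.Agent.W287.UN.MMs
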